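import Mathlib
import Pool.Agent.R870.RC.Defs

set_option autoImplicit false

/-! # Random C-pairs: definitions -/

namespace Pool.Agent.R870.RC

open MvPolynomial

/-- the nonzero integer `t` satisfies Campana's condition of multiplicity `m` outside of `S`: a prime
`p ∉ S` that divides `t` divides it with multiplicity at least `m` (in particular `m ≠ ∞`) -/
def Cam (S : Finset ℕ) (m : ℕ∞) (t : ℤ) : Prop :=
  t ≠ 0 ∧ ∀ p : ℕ, p.Prime → p ∉ S → (p : ℤ) ∣ t → ∃ k : ℕ, m = k ∧ (p : ℤ) ^ k ∣ t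

/-- `1 / m`, which is `0` for `m = ∞` -/
noncomputable def th (m : ℕ∞) : ℝ := if m = ⊤ then 0 else 1 / (m.toNat : ℝ)

/-- the number of the `i` with `m_i = ∞` -/
noncomputable def ninf {s : ℕ} (m : Fin s → ℕ∞) : ℕ := by
  classical
  exact (Finset.univ.filter (fun i => m i = ⊤)).card

/-- the systems `(F_1, …, F_s)` of forms of degrees `d_i` with integer coefficients of absolute value
at most `H` for which the pair `(ℙ^n, ∑ (1 - 1 / m_i) D_i)`, `D_i : F_i = 0`, has a Campana point over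
`ℤ[1/S]` of height at most `B`, not on the `D_i` -/
def CamPoint (n : ℕ) {s : ℕ} (d : Fin s → ℕ) (m : Fin s → ℕ∞) (S : Finset ℕ) (H B : ℕ) :
    Set (Fin s → MvPolynomial (Fin (n + 1)) ℤ) :=
  {F | F ∈ Systems n d H ∧ ∃ x : Fin (n + 1) → ℤ, (∃ a : Fin (n + 1) → ℤ, ∑ j, a j * x j = 1) ∧
    (∀ j, |x j| ≤ B) ∧ ∀ i, Cam S (m i) (eval x (F i))}

end Pool.Agent.R870.RC
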