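import Mathlib
import Pool.Agent.R870.RO.Defs
import Pool.Agent.R870.RP.Units
import Pool.Agent.H328R2.ABC.RadSum

set_option autoImplicit false

/-! # The number of integers that satisfy Campana's condition -/

namespace Pool.Agent.R870.RC

open Finset Pool.Agent.H328R2.ABC Pool.Agent.H328R2.ABC.RadSumAux

/-- the series `∑ V ^ (-ε) / rad V` has bounded partial sums -/
theorem sum_ff (ε : ℝ) (hε : 0 < ε) :
    ∃ C : ℝ, 0 < C ∧ ∀ X : ℕ, ∑ V ∈ Finset.Icc 1 X, ff ε V ≤ C := by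
  have hs : Summable (fun n : ℕ => (n : ℝ) ^ (-(1 + ε))) :=
    Real.summable_nat_rpow.2 (by linarith)
  have hy1 : (2 : ℝ) ^ (-ε) < 1 := Real.rpow_lt_one_of_one_lt_of_neg (by norm_num) (by linarith)
  have hy2 : 0 ≤ (1 - (2 : ℝ) ^ (-ε))⁻¹ := inv_nonneg.2 (by linarith)
  refine ⟨Real.exp ((1 - (2 : ℝ) ^ (-ε))⁻¹ * ∑' n : ℕ, (n : ℝ) ^ (-(1 + ε))), Real.exp_pos _, ?_⟩
  intro X
  have h1 := (EulerProduct.summable_and_hasSum_smoothNumbers_prod_primesBelow_tsum
    (f := ff ε) (ff_one ε) (fun h => ff_mul ε h) (by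
      intro p hp
      have := (hasSum_ff ε hε hp).summable
      simpa [Real.norm_of_nonneg (ff_nonneg ε _)] using this) (X + 1)).2
  have h2 : HasSum ((Nat.smoothNumbers (X + 1)).indicator (ff ε))
      (∏ p ∈ (X + 1).primesBelow, ∑' n : ℕ, ff ε (p ^ n)) := by
    rw [← hasSum_subtype_iff_indicator]
    exact h1
  have h3 := sum_le_hasSum (Finset.Icc 1 X) (fun n _ => by
    apply Set.indicator_nonneg
    intro n _
    exact ff_nonneg ε n) h2
  have h4 : ∀ V ∈ Finset.Icc 1 X, ff ε V =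
      (Nat.smoothNumbers (X + 1)).indicator (ff ε) V := by
    intro V hV
    rw [Finset.mem_Icc] at hV
    have hmem : V ∈ Nat.smoothNumbers (X + 1) := by
      rw [Nat.mem_smoothNumbers']
      intro p _ hpV
      have := Nat.le_of_dvd (by omega) hpV
      omega
    rw [Set.indicator_of_mem hmem]
  have h5 : ∏ p ∈ (X + 1).primesBelow, ∑' n : ℕ, ff ε (p ^ n) ≤
      Real.exp ((1 - (2 : ℝ) ^ (-ε))⁻¹ * ∑' n : ℕ, (n : ℝ) ^ (-(1 + ε))) := by
    calc ∏ p ∈ (X + 1).primesBelow, ∑' n : ℕ, ff ε (p ^ n)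
        ≤ ∏ p ∈ (X + 1).primesBelow, Real.exp ((1 - (2 : ℝ) ^ (-ε))⁻¹ * (p : ℝ) ^ (-(1 + ε))) := by
          apply Finset.prod_le_prod
          · intro p _
            exact tsum_nonneg fun n => ff_nonneg ε _
          · intro p hp
            exact local_le ε hε (Nat.prime_of_mem_primesBelow hp)
      _ = Real.exp (∑ p ∈ (X + 1).primesBelow, (1 - (2 : ℝ) ^ (-ε))⁻¹ * (p : ℝ) ^ (-(1 + ε))) := by
          rw [Real.exp_sum]
      _ ≤ _ := by
          apply Real.exp_le_exp.2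
          rw [← Finset.mul_sum]
          apply mul_le_mul_of_nonneg_left _ hy2
          exact hs.sum_le_tsum _ (fun n _ => by positivity)
  rw [Finset.sum_congr rfl h4]
  exact h3.trans h5

/-- the structure of `m`-full numbers -/
theorem mfull_form (m w : ℕ) (hm : 1 ≤ m) (hw : w ≠ 0)
    (h : ∀ p : ℕ, p.Prime → p ∣ w → p ^ m ∣ w) :
    ∃ ρ a : ℕ, ρ ≠ 0 ∧ a ≠ 0 ∧ w = a ^ m * rad ρ ^ m * ρ := by
  set ρ : ℕ := ∏ p ∈ w.primeFactors, p ^ (w.factorization p % m) with hρ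
  set b : ℕ := ∏ p ∈ w.primeFactors, p ^ (w.factorization p / m) with hb
  have hρ0 : ρ ≠ 0 := by
    rw [hρ]
    exact Finset.prod_ne_zero_iff.2 fun p hp =>
      pow_ne_zero _ (Nat.prime_of_mem_primeFactors hp).ne_zero
  have hb0 : b ≠ 0 := by
    rw [hb]
    exact Finset.prod_ne_zero_iff.2 fun p hp =>
      pow_ne_zero _ (Nat.prime_of_mem_primeFactors hp).ne_zero
  have hwb : w = b ^ m * ρ := by
    rw [hb, hρ, ← Finset.prod_pow, ← Finset.prod_mul_distrib]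
    conv_lhs => rw [← Nat.prod_factorization_pow_eq_self hw]
    rw [Finsupp.prod, Nat.support_factorization]
    refine Finset.prod_congr rfl fun p _ => ?_
    rw [← pow_mul, ← pow_add, mul_comm, Nat.div_add_mod]
  have hrad : rad ρ ∣ b := by
    have h1 : ρ.primeFactors ⊆ w.primeFactors := by
      intro p hp
      have hpp := Nat.prime_of_mem_primeFactors hp
      have hd := Nat.dvd_of_mem_primeFactors hp
      rw [Nat.mem_primeFactors]
      refine ⟨hpp, ?_, hw⟩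
      rw [hwb]
      exact hd.mul_left _
    have h2 : rad ρ ∣ ∏ p ∈ w.primeFactors, p := by
      unfold rad
      exact Finset.prod_dvd_prod_of_subset _ _ _ h1
    refine h2.trans ?_
    rw [hb]
    refine Finset.prod_dvd_prod_of_dvd _ _ fun p hp => ?_
    have hpp := Nat.prime_of_mem_primeFactors hp
    have hd := h p hpp (Nat.dvd_of_mem_primeFactors hp)
    have h3 : m ≤ w.factorization p := (hpp.pow_dvd_iff_le_factorization hw).1 hd
    have h4 : 1 ≤ w.factorization p / m := (Nat.one_le_div_iff (by omega)).2 h3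
    exact dvd_pow_self p (by omega)
  obtain ⟨a, ha⟩ := hrad
  refine ⟨ρ, a, hρ0, ?_, ?_⟩
  · rintro rfl
    rw [mul_zero] at ha
    exact hb0 ha
  · rw [hwb, ha, mul_pow]
    ring

/-- the `m`-full numbers up to `T` -/
noncomputable def MF (m T : ℕ) : Finset ℕ := by
  classical
  exact (Finset.Icc 1 T).filter (fun w => ∀ p : ℕ, p.Prime → p ∣ w → p ^ m ∣ w)

theorem mem_MF {m T w : ℕ} : w ∈ MF m T ↔ (1 ≤ w ∧ w ≤ T) ∧
    ∀ p : ℕ, p.Prime → p ∣ w → p ^ m ∣ w := by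
  classical
  unfold MF
  rw [Finset.mem_filter, Finset.mem_Icc]

theorem card_MF (m : ℕ) (hm : 1 ≤ m) : ∃ C : ℝ, 0 < C ∧ ∀ T : ℕ,
    ((MF m T).card : ℝ) ≤ C * (T : ℝ) ^ ((1 : ℝ) / m) := by
  classical
  have hmr : (0 : ℝ) < m := by exact_mod_cast hm
  obtain ⟨C, hC, h⟩ := sum_ff ((1 : ℝ) / m) (by positivity)
  refine ⟨C, hC, fun T => ?_⟩
  set g : ℕ → ℝ := fun ρ => (T : ℝ) ^ ((1 : ℝ) / m) * ff ((1 : ℝ) / m) ρ with hg
  have hsub : MF m T ⊆ (Finset.Icc 1 T).biUnion fun ρ =>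
      (Finset.Icc 1 ⌊g ρ⌋₊).image (fun a => a ^ m * rad ρ ^ m * ρ) := by
    intro w hw
    obtain ⟨⟨hw1, hwT⟩, hwf⟩ := mem_MF.1 hw
    obtain ⟨ρ, a, hρ, ha, hwe⟩ := mfull_form m w hm (by omega) hwf
    have hrad0 : 0 < rad ρ := Finset.prod_pos fun p hp => (Nat.prime_of_mem_primeFactors hp).pos
    rw [Finset.mem_biUnion]
    have hρw : ρ ≤ T := by
      refine le_trans ?_ hwT
      rw [hwe]
      exact Nat.le_mul_of_pos_left _ (Nat.mul_pos (pow_pos (Nat.pos_of_ne_zero ha) _)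
        (pow_pos hrad0 _))
    refine ⟨ρ, Finset.mem_Icc.2 ⟨Nat.pos_of_ne_zero hρ, hρw⟩, ?_⟩
    rw [Finset.mem_image]
    refine ⟨a, Finset.mem_Icc.2 ⟨Nat.pos_of_ne_zero ha, ?_⟩, hwe.symm⟩
    refine Nat.le_floor ?_
    have hρr : (0 : ℝ) < ρ := by exact_mod_cast Nat.pos_of_ne_zero hρ
    have hrr : (0 : ℝ) < rad ρ := by exact_mod_cast hrad0
    have har : (0 : ℝ) ≤ a := Nat.cast_nonneg a
    -- `(a rad ρ)^m ρ ≤ T`
    have h1 : ((a : ℝ) * rad ρ) ^ m * ρ ≤ T := by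
      have h2 : a ^ m * rad ρ ^ m * ρ ≤ T := by rw [← hwe]; exact hwT
      rw [mul_pow]
      exact_mod_cast h2
    have h2 : ((a : ℝ) * rad ρ) ^ m ≤ T / ρ := (le_div_iff₀ hρr).2 h1
    have h3 : (a : ℝ) * rad ρ ≤ (T / ρ : ℝ) ^ ((1 : ℝ) / m) := by
      have h4 := Real.rpow_le_rpow (by positivity) h2 (by positivity : (0 : ℝ) ≤ (1 : ℝ) / m)
      rw [← Real.rpow_natCast, ← Real.rpow_mul (by positivity), mul_one_div_cancel hmr.ne',
        Real.rpow_one] at h4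
      exact h4
    rw [hg]
    show (a : ℝ) ≤ (T : ℝ) ^ ((1 : ℝ) / m) * ff ((1 : ℝ) / m) ρ
    unfold ff
    rw [Real.div_rpow (Nat.cast_nonneg _) (Nat.cast_nonneg _)] at h3
    rw [Real.rpow_neg hρr.le, ← mul_div_assoc, le_div_iff₀ hrr, ← div_eq_mul_inv]
    exact h3
  have h1 : ((MF m T).card : ℝ) ≤ ∑ ρ ∈ Finset.Icc 1 T, g ρ := by
    refine (Nat.cast_le.2 ((Finset.card_le_card hsub).trans Finset.card_biUnion_le)).trans ?_
    rw [Nat.cast_sum]
    refine Finset.sum_le_sum fun ρ _ => ?_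
    have h2 : (((Finset.Icc 1 ⌊g ρ⌋₊).image (fun a => a ^ m * rad ρ ^ m * ρ)).card : ℝ) ≤
        (⌊g ρ⌋₊ : ℝ) := by
      have h3 := Finset.card_image_le (s := Finset.Icc 1 ⌊g ρ⌋₊)
        (f := fun a => a ^ m * rad ρ ^ m * ρ)
      rw [Nat.card_Icc, Nat.add_sub_cancel] at h3
      exact_mod_cast h3
    refine h2.trans (Nat.floor_le ?_)
    rw [hg]
    exact mul_nonneg (Real.rpow_nonneg (Nat.cast_nonneg _) _) (ff_nonneg _ _)
  refine h1.trans ?_
  rw [hg, ← Finset.mul_sum, mul_comm C]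
  exact mul_le_mul_of_nonneg_left (h T) (Real.rpow_nonneg (Nat.cast_nonneg _) _)

/-- the integers of absolute value at most `T` with Campana's condition -/
noncomputable def CU (S : Finset ℕ) (m : ℕ∞) (T : ℕ) : Finset ℤ := by
  classical
  exact (Finset.Icc (-(T : ℤ)) T).filter (Cam S m)

theorem mem_CU {S : Finset ℕ} {m : ℕ∞} {T : ℕ} {t : ℤ} : t ∈ CU S m T ↔ |t| ≤ T ∧ Cam S m t := by
  classical
  unfold CU
  rw [Finset.mem_filter, Finset.mem_Icc, ← abs_le]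

theorem CU_top (S : Finset ℕ) (T : ℕ) : CU S ⊤ T = UU S T := by
  ext t
  rw [mem_CU, mem_UU]
  refine and_congr Iff.rfl (and_congr Iff.rfl ?_)
  constructor
  · intro h p hp hd
    by_contra hS
    obtain ⟨k, hk, -⟩ := h p hp hS hd
    exact ENat.top_ne_natCast k hk
  · intro h p hp hS hd
    exact absurd (h p hp hd) hS

theorem card_CU_fin (S : Finset ℕ) (hS : ∀ p ∈ S, p.Prime) (m : ℕ) (hm : 1 ≤ m) :
    ∃ C : ℝ, 0 < C ∧ ∀ T : ℕ, ((CU S m T).card : ℝ) ≤ C * (T : ℝ) ^ ((1 : ℝ) / m) := by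
  classical
  have hmr : (0 : ℝ) < m := by exact_mod_cast hm
  obtain ⟨C, hC, h⟩ := card_MF m hm
  set P : ℕ := ∏ p ∈ S, p with hP
  have hP0 : 0 < P := Finset.prod_pos fun p hp => (hS p hp).pos
  have hPr : (0 : ℝ) < P := by exact_mod_cast hP0
  refine ⟨2 * C * P, by positivity, fun T => ?_⟩
  have h1 : (CU S m T).card ≤ ((Finset.univ : Finset Bool) ×ˢ MF m (T * P ^ m)).card := by
    refine Finset.card_le_card_of_injOn (fun t => (decide (0 ≤ t), t.natAbs * P ^ m)) ?_ ?_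
    · intro t ht
      rw [Finset.mem_coe, mem_CU] at ht
      obtain ⟨htT, ht0, hcam⟩ := ht
      rw [Finset.mem_coe, Finset.mem_product]
      refine ⟨Finset.mem_univ _, ?_⟩
      rw [mem_MF]
      have h0 : 0 < t.natAbs := Int.natAbs_pos.2 ht0
      have hT : t.natAbs ≤ T := by
        rw [← Int.natCast_natAbs] at htT
        exact_mod_cast htT
      refine ⟨⟨Nat.mul_pos h0 (pow_pos hP0 _), Nat.mul_le_mul_right _ hT⟩, fun p hp hd => ?_⟩
      show p ^ m ∣ t.natAbs * P ^ m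
      by_cases hpS : p ∈ S
      · exact Dvd.dvd.mul_left (pow_dvd_pow_of_dvd (Finset.dvd_prod_of_mem _ hpS) m) _
      · rcases (hp.dvd_mul.1 hd) with h2 | h2
        · have h3 : (p : ℤ) ∣ t := Int.natCast_dvd.2 h2
          obtain ⟨k, hk, hk2⟩ := hcam p hp hpS h3
          have hk3 : m = k := by exact_mod_cast hk
          subst hk3
          have h4 : ((p ^ m : ℕ) : ℤ) ∣ t := by exact_mod_cast hk2
          exact Dvd.dvd.mul_right (Int.natCast_dvd.1 h4) _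
        · have h3 : p ∣ P := hp.dvd_of_dvd_pow h2
          obtain ⟨r, hr, hr2⟩ := (hp.prime.dvd_finsetProd_iff _).1 h3
          rw [(Nat.prime_dvd_prime_iff_eq hp (hS r hr)).1 hr2] at hpS
          exact absurd hr hpS
    · intro t ht t' ht' h2
      have h3 : decide (0 ≤ t) = decide (0 ≤ t') := congrArg Prod.fst h2
      have h4 : t.natAbs * P ^ m = t'.natAbs * P ^ m := congrArg Prod.snd h2
      have h5 : t.natAbs = t'.natAbs := Nat.eq_of_mul_eq_mul_right (pow_pos hP0 _) h4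
      rw [decide_eq_decide] at h3
      rw [Finset.mem_coe, mem_CU] at ht ht'
      have h6 := ht.2.1
      have h7 := ht'.2.1
      omega
  rw [Finset.card_product] at h1
  have h2 : ((CU S m T).card : ℝ) ≤ 2 * ((MF m (T * P ^ m)).card : ℝ) := by
    have h3 : (Finset.univ : Finset Bool).card = 2 := rfl
    rw [h3] at h1
    exact_mod_cast h1
  refine h2.trans ?_
  have h3 := h (T * P ^ m)
  have h4 : ((T * P ^ m : ℕ) : ℝ) ^ ((1 : ℝ) / m) = (T : ℝ) ^ ((1 : ℝ) / m) * P := by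
    rw [Nat.cast_mul, Nat.cast_pow, Real.mul_rpow (Nat.cast_nonneg _) (by positivity),
      ← Real.rpow_natCast (P : ℝ) m, ← Real.rpow_mul hPr.le, mul_one_div_cancel hmr.ne',
      Real.rpow_one]
  rw [h4] at h3
  calc 2 * ((MF m (T * P ^ m)).card : ℝ) ≤ 2 * (C * ((T : ℝ) ^ ((1 : ℝ) / m) * P)) :=
        mul_le_mul_of_nonneg_left h3 (by norm_num)
    _ = _ := by ring

/-- the exponent of the logarithm -/
noncomputable def exc (S : Finset ℕ) (m : ℕ∞) : ℕ := if m = ⊤ then S.card else 0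

/-- upper bound -/
theorem card_CU_le (S : Finset ℕ) (hS : ∀ p ∈ S, p.Prime) (m : ℕ∞) (hm : 1 ≤ m) (N d : ℕ)
    (hN : 1 ≤ N) : ∃ K : ℝ, 0 ≤ K ∧ ∀ H b : ℕ, 1 ≤ H → 1 ≤ b →
    ((CU S m (N * H * b ^ d)).card : ℝ) ≤ K * (((H : ℝ) ^ th m * (1 + Real.log H) ^ exc S m) *
      ((b : ℝ) ^ (d * th m) * (1 + Real.log b) ^ exc S m)) := by
  by_cases h : m = ⊤
  · subst h
    obtain ⟨K, hK, hKb⟩ := card_UU_log S N d hN
    refine ⟨K, hK, fun H b hH hb => ?_⟩
    have e1 : exc S ⊤ = S.card := if_pos rfl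
    have e2 : th ⊤ = 0 := if_pos rfl
    rw [CU_top, e1, e2, mul_zero, Real.rpow_zero, Real.rpow_zero, one_mul, one_mul]
    exact hKb H b hH hb
  · obtain ⟨k, rfl⟩ := ENat.ne_top_iff_exists.1 h
    have hk : 1 ≤ k := by exact_mod_cast hm
    have hkr : (0 : ℝ) < k := by exact_mod_cast hk
    obtain ⟨C, hC, hCb⟩ := card_CU_fin S hS k hk
    refine ⟨C * (N : ℝ) ^ ((1 : ℝ) / k), by positivity, fun H b hH hb => ?_⟩
    have e1 : exc S (k : ℕ∞) = 0 := if_neg h
    have e2 : th (k : ℕ∞) = 1 / k := by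
      unfold th
      rw [if_neg h, ENat.toNat_natCast]
    rw [e1, e2, pow_zero, pow_zero, mul_one, mul_one]
    refine (hCb _).trans (le_of_eq ?_)
    rw [Nat.cast_mul, Nat.cast_mul, Nat.cast_pow, Real.mul_rpow (by positivity) (by positivity),
      Real.mul_rpow (by positivity) (by positivity), ← Real.rpow_natCast (b : ℝ) d,
      ← Real.rpow_mul (by positivity)]
    ring

/-- lower bound -/
theorem card_CU_ge (S : Finset ℕ) (hS : ∀ p ∈ S, p.Prime) (m : ℕ∞) (hm : 1 ≤ m) :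
    ∃ c : ℝ, 0 < c ∧ ∀ H : ℕ, 1 ≤ H →
      c * ((H : ℝ) ^ th m * (1 + Real.log H) ^ exc S m) ≤ ((CU S m H).card : ℝ) := by
  classical
  by_cases h : m = ⊤
  · subst h
    obtain ⟨c, hc, hcb⟩ := card_UU_ge S hS
    refine ⟨c, hc, fun H hH => ?_⟩
    have e1 : exc S ⊤ = S.card := if_pos rfl
    have e2 : th ⊤ = 0 := if_pos rfl
    rw [CU_top, e1, e2, Real.rpow_zero, one_mul]
    exact hcb H hH
  · obtain ⟨k, rfl⟩ := ENat.ne_top_iff_exists.1 h
    have hk : 1 ≤ k := by exact_mod_cast hm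
    have hkr : (0 : ℝ) < k := by exact_mod_cast hk
    refine ⟨1 / 2, by norm_num, fun H hH => ?_⟩
    have hHr : (1 : ℝ) ≤ H := by exact_mod_cast hH
    have e1 : exc S (k : ℕ∞) = 0 := if_neg h
    have e2 : th (k : ℕ∞) = 1 / k := by
      unfold th
      rw [if_neg h, ENat.toNat_natCast]
    rw [e1, e2, pow_zero, mul_one]
    set L : ℝ := (H : ℝ) ^ ((1 : ℝ) / k) with hL
    have hL1 : 1 ≤ L := Real.one_le_rpow hHr (by positivity)
    have hpow : L ^ k = H := by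
      rw [hL, ← Real.rpow_natCast, ← Real.rpow_mul (by positivity), one_div,
        inv_mul_cancel₀ hkr.ne', Real.rpow_one]
    have h1 : (Finset.Icc 1 ⌊L⌋₊).card ≤ (CU S (k : ℕ∞) H).card := by
      refine Finset.card_le_card_of_injOn (fun a => ((a : ℤ) ^ k)) ?_ ?_
      · intro a ha
        rw [Finset.mem_coe, Finset.mem_Icc] at ha
        rw [Finset.mem_coe, mem_CU]
        have haL : (a : ℝ) ≤ L := (Nat.le_floor_iff (by linarith)).1 ha.2
        have hpos : (0 : ℤ) < (a : ℤ) ^ k := pow_pos (by exact_mod_cast ha.1) k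
        refine ⟨?_, hpos.ne', fun p hp _ hd => ⟨k, rfl, ?_⟩⟩
        · show |(a : ℤ) ^ k| ≤ H
          rw [abs_of_pos hpos]
          have h2 : (a : ℝ) ^ k ≤ H := by
            rw [← hpow]
            exact pow_le_pow_left₀ (Nat.cast_nonneg _) haL k
          exact_mod_cast h2
        · have hp' : Prime (p : ℤ) := Nat.prime_iff_prime_int.1 hp
          exact pow_dvd_pow_of_dvd (hp'.dvd_of_dvd_pow hd) k
      · intro a _ b _ h2
        have h2 : (a : ℤ) ^ k = (b : ℤ) ^ k := h2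
        have h3 : a ^ k = b ^ k := by exact_mod_cast h2
        exact Nat.pow_left_injective (by omega) h3
    rw [Nat.card_Icc, Nat.add_sub_cancel] at h1
    have h2 : (⌊L⌋₊ : ℝ) ≤ ((CU S (k : ℕ∞) H).card : ℝ) := by exact_mod_cast h1
    refine le_trans ?_ h2
    have h3 : L < ⌊L⌋₊ + 1 := Nat.lt_floor_add_one L
    have h4 : 1 ≤ ⌊L⌋₊ := (Nat.one_le_floor_iff L).2 hL1
    have h5 : (1 : ℝ) ≤ (⌊L⌋₊ : ℝ) := by exact_mod_cast h4
    linarith

end Pool.Agent.R870.RC
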