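import Mathlib
import Pool.Agent.R870.RO.Full
import Pool.Agent.R870.RP.Main

set_option autoImplicit false

/-! # Random C-pairs -/

namespace Pool.Agent.R870.RC

open MvPolynomial Finset

variable {n : ℕ}

/-- the forms with Campana's condition at `x` -/
noncomputable def VC (n d H : ℕ) (S : Finset ℕ) (m : ℕ∞) (x : Fin (n + 1) → ℤ) :
    Finset (MvPolynomial (Fin (n + 1)) ℤ) := by
  classical
  exact (FF n d H).filter (fun F => Cam S m (eval x F))

theorem mem_VC {d H : ℕ} {S : Finset ℕ} {m : ℕ∞} {x : Fin (n + 1) → ℤ}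
    {F : MvPolynomial (Fin (n + 1)) ℤ} : F ∈ VC n d H S m x ↔ F ∈ FF n d H ∧
      Cam S m (eval x F) := by
  classical
  unfold VC
  exact Finset.mem_filter

theorem card_VC (d : ℕ) (S : Finset ℕ) (hS : ∀ p ∈ S, p.Prime) (m : ℕ∞) (hm : 1 ≤ m) :
    ∃ K : ℝ, 0 ≤ K ∧ ∀ H : ℕ, 1 ≤ H →
    ∀ (x : Fin (n + 1) → ℤ) (i0 : Fin (n + 1)) (b : ℕ), Prim x i0 b →
      ((VC n d H S m x).card : ℝ) ≤ K *
        (((H : ℝ) ^ th m * (1 + Real.log H) ^ exc S m) / H) *
        (((b : ℝ) ^ (d * th m) * (1 + Real.log b) ^ exc S m) / ((min b H : ℕ) : ℝ) ^ d) *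
        ((FF n d H).card : ℝ) := by
  classical
  have hN1 : 1 ≤ (Mo n d).card := by
    rw [card_Mo]
    exact Nat.choose_pos (by omega)
  obtain ⟨K, hK, hKb⟩ := card_CU_le S hS m hm (Mo n d).card d hN1
  refine ⟨K * cst n d, mul_nonneg hK (Nat.cast_nonneg _), fun H hH x i0 b hx => ?_⟩
  have hHr : (1 : ℝ) ≤ H := by exact_mod_cast hH
  have hb1 : 1 ≤ b := hx.2.2.1
  have hsub : VC n d H S m x ⊆ (CU S m ((Mo n d).card * H * b ^ d)).biUnion
      fun t => (FF n d H).filter (fun F => eval x F = t) := by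
    intro F hF
    obtain ⟨h1, h2⟩ := mem_VC.1 hF
    rw [Finset.mem_biUnion]
    refine ⟨eval x F, mem_CU.2 ⟨?_, h2⟩, Finset.mem_filter.2 ⟨h1, rfl⟩⟩
    exact abs_eval_le ((mem_FF F).1 h1) x b hx.2.2.2
  have h1 : ((VC n d H S m x).card : ℝ) ≤ ∑ _t ∈ CU S m ((Mo n d).card * H * b ^ d),
      (cst n d * (FF n d H).card / (H * ((min b H : ℕ) : ℝ) ^ d) : ℝ) := by
    refine (Nat.cast_le.2 ((Finset.card_le_card hsub).trans Finset.card_biUnion_le)).trans ?_
    rw [Nat.cast_sum]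
    exact Finset.sum_le_sum fun t _ => count_real d H hH x i0 b hx t
  refine h1.trans ?_
  rw [Finset.sum_const, nsmul_eq_mul]
  have h3 : (0 : ℝ) ≤ cst n d * ((FF n d H).card : ℝ) / (H * ((min b H : ℕ) : ℝ) ^ d) :=
    div_nonneg (mul_nonneg (Nat.cast_nonneg _) (Nat.cast_nonneg _))
      (mul_nonneg (by linarith) (pow_nonneg (Nat.cast_nonneg _) _))
  refine (mul_le_mul_of_nonneg_right (hKb H b hH hb1) h3).trans (le_of_eq ?_)
  ring

/-- the values at the unit vector -/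
theorem low_VC (d : ℕ) (S : Finset ℕ) (hS : ∀ p ∈ S, p.Prime) (m : ℕ∞) (hm : 1 ≤ m) :
    ∃ c : ℝ, 0 < c ∧ ∀ H : ℕ, 1 ≤ H →
      c * (((H : ℝ) ^ th m * (1 + Real.log H) ^ exc S m) / H) * ((FF n d H).card : ℝ) ≤
        ((VC n d H S m (e0 n)).card : ℝ) := by
  classical
  obtain ⟨c, hc, hcb⟩ := card_CU_ge S hS m hm
  refine ⟨c / 3, by positivity, fun H hH => ?_⟩
  have hHr : (1 : ℝ) ≤ H := by exact_mod_cast hH
  have h1 := low_one (n := n) d H hH
  have h2 := hcb H hH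
  have h3 : (((FF n d H).filter (fun F => eval (e0 n) F = 0)) ×ˢ CU S m H).card ≤
      (VC n d H S m (e0 n)).card := by
    refine Finset.card_le_card_of_injOn
      (fun p => p.1 + monomial (Finsupp.single 0 d) p.2) ?_ ?_
    · rintro ⟨F, t⟩ hp
      rw [Finset.mem_coe, Finset.mem_product, Finset.mem_filter, mem_FF, mem_CU] at hp
      obtain ⟨⟨hF, hF0⟩, ht, hu⟩ := hp
      have hF : F ∈ Forms n d H := hF
      have hF0 : eval (e0 n) F = 0 := hF0
      have ht : |t| ≤ (H : ℤ) := ht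
      have hu : Cam S m t := hu
      have hc0 : F.coeff (Finsupp.single 0 d) = 0 := by
        rw [← eval_unit F hF.1]
        exact hF0
      have hmon := forms_monomial (n := n) (d := d) (H := H) (Finsupp.single 0 d)
        (Finsupp.degree_single _ _) t ht
      rw [Finset.mem_coe, mem_VC, mem_FF]
      have hev : eval (e0 n) (F + monomial (Finsupp.single 0 d) t) = t := by
        rw [map_add, hF0, zero_add, eval_unit _ hmon.1, coeff_monomial, if_pos rfl]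
      refine ⟨⟨hF.1.add hmon.1, fun m => ?_⟩, ?_⟩
      · show |(F + monomial (Finsupp.single 0 d) t : MvPolynomial (Fin (n + 1)) ℤ).coeff m| ≤
          (H : ℤ)
        rw [coeff_add, coeff_monomial]
        by_cases h : Finsupp.single 0 d = m
        · rw [if_pos h, ← h, hc0, zero_add]
          exact ht
        · rw [if_neg h, add_zero]
          exact hF.2 m
      · show Cam S m (eval (e0 n) (F + monomial (Finsupp.single 0 d) t))
        rw [hev]
        exact hu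
    · rintro ⟨F, t⟩ hp ⟨F', t'⟩ hp' h
      rw [Finset.mem_coe, Finset.mem_product, Finset.mem_filter] at hp hp'
      have hF0 : eval (e0 n) F = 0 := hp.1.2
      have hF0' : eval (e0 n) F' = 0 := hp'.1.2
      have h : F + monomial (Finsupp.single 0 d) t = F' + monomial (Finsupp.single 0 d) t' := h
      have h2 := congrArg (eval (e0 n)) h
      have hm : ∀ t : ℤ, eval (e0 n) (monomial (Finsupp.single 0 d) t) = t := by
        intro t
        rw [eval_unit (d := d) _ (isHomogeneous_monomial _ (Finsupp.degree_single _ _)),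
          coeff_monomial, if_pos rfl]
      rw [map_add, map_add, hF0, hF0', hm, hm, zero_add, zero_add] at h2
      subst h2
      rw [add_right_cancel h]
  rw [Finset.card_product] at h3
  have h4 : ((((FF n d H).filter (fun F => eval (e0 n) F = 0)).card : ℕ) : ℝ) *
      ((CU S m H).card : ℝ) ≤ ((VC n d H S m (e0 n)).card : ℝ) := by exact_mod_cast h3
  refine le_trans ?_ h4
  have h5 : (0 : ℝ) ≤ ((FF n d H).card : ℝ) / (3 * H) :=
    div_nonneg (Nat.cast_nonneg _) (by linarith)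
  have h6 : (0 : ℝ) ≤ ((CU S m H).card : ℝ) := Nat.cast_nonneg _
  calc c / 3 * (((H : ℝ) ^ th m * (1 + Real.log H) ^ exc S m) / H) * ((FF n d H).card : ℝ)
      = ((FF n d H).card : ℝ) / (3 * H) *
        (c * ((H : ℝ) ^ th m * (1 + Real.log H) ^ exc S m)) := by
        ring
    _ ≤ ((FF n d H).card : ℝ) / (3 * H) * ((CU S m H).card : ℝ) :=
        mul_le_mul_of_nonneg_left h2 h5
    _ ≤ _ := mul_le_mul_of_nonneg_right h1 h6

/-- a sum over the points -/
theorem sum_log_real (n D Q : ℕ) (E : ℝ) (hE0 : 0 ≤ E) (hD : (n : ℝ) + 1 + E < D) :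
    ∃ K : ℝ, 0 ≤ K ∧ ∀ H B : ℕ, 1 ≤ H → 1 ≤ B →
    ∑ b ∈ Finset.Icc 1 B, (2 * (3 * b) ^ n : ℝ) *
      ((b : ℝ) ^ E * (1 + Real.log b) ^ Q / ((min b H : ℕ) : ℝ) ^ D) ≤
      K * (1 + (B : ℝ) ^ ((n : ℝ) + 1 + E) * (1 + Real.log B) ^ Q / (H : ℝ) ^ D) := by
  set η : ℝ := (D : ℝ) - (n + 1 + E) with hη
  have hη0 : 0 < η := by linarith
  -- the logarithms are bounded by a small power
  obtain ⟨K1, hK1, hlog⟩ : ∃ K1 : ℝ, 0 ≤ K1 ∧ ∀ b : ℕ, 1 ≤ b →
      (1 + Real.log b) ^ Q ≤ K1 * (b : ℝ) ^ (η / 2) := by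
    rcases Nat.eq_zero_or_pos Q with hQ | hQ
    · refine ⟨1, zero_le_one, fun b hb => ?_⟩
      rw [hQ, pow_zero, one_mul]
      exact Real.one_le_rpow (by exact_mod_cast hb) (by positivity)
    · have hQr : (1 : ℝ) ≤ Q := by exact_mod_cast hQ
      set ε : ℝ := η / (2 * Q) with hε
      have hε0 : 0 < ε := by positivity
      refine ⟨(1 + 1 / ε) ^ Q, by positivity, fun b hb => ?_⟩
      have hbr : (1 : ℝ) ≤ b := by exact_mod_cast hb
      have h1 : Real.log b ≤ 1 / ε * (b : ℝ) ^ ε := by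
        have h2 := Real.log_le_rpow_div (x := (b : ℝ)) (ε := ε) (by linarith) hε0
        refine h2.trans (le_of_eq ?_)
        ring
      have h3 : 1 ≤ (b : ℝ) ^ ε := Real.one_le_rpow hbr hε0.le
      have h4 : 1 + Real.log b ≤ (1 + 1 / ε) * (b : ℝ) ^ ε := by
        rw [add_mul, one_mul]
        linarith
      have h0 : 0 ≤ 1 + Real.log b := by
        have := Real.log_nonneg hbr
        linarith
      refine (pow_le_pow_left₀ h0 h4 Q).trans (le_of_eq ?_)
      rw [mul_pow, ← Real.rpow_natCast ((b : ℝ) ^ ε), ← Real.rpow_mul (by linarith)]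
      congr 2
      rw [hε]
      field_simp
  have hsum : Summable fun b : ℕ => (b : ℝ) ^ (-(1 + η / 2)) :=
    Real.summable_nat_rpow.2 (by linarith)
  set T : ℝ := ∑' b : ℕ, (b : ℝ) ^ (-(1 + η / 2)) with hT
  have hT0 : 0 ≤ T := tsum_nonneg fun b => Real.rpow_nonneg (Nat.cast_nonneg _) _
  refine ⟨2 * 3 ^ n * (K1 * T + 1), by positivity, fun H B hH hB => ?_⟩
  have hHr : (1 : ℝ) ≤ H := by exact_mod_cast hH
  have hBr : (1 : ℝ) ≤ B := by exact_mod_cast hB
  have hB0 : (0 : ℝ) < B := by linarith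
  have hlB : 0 ≤ Real.log B := Real.log_nonneg hBr
  have key : ∀ b ∈ Finset.Icc 1 B, (2 * (3 * b) ^ n : ℝ) *
      ((b : ℝ) ^ E * (1 + Real.log b) ^ Q / ((min b H : ℕ) : ℝ) ^ D) ≤
      2 * 3 ^ n * (K1 * (b : ℝ) ^ (-(1 + η / 2)) +
        (B : ℝ) ^ n * ((B : ℝ) ^ E * (1 + Real.log B) ^ Q / (H : ℝ) ^ D)) := by
    intro b hb
    obtain ⟨hb1, hb2⟩ := Finset.mem_Icc.1 hb
    have hbr : (1 : ℝ) ≤ b := by exact_mod_cast hb1
    have hb0 : (0 : ℝ) < b := by linarith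
    have hbB : (b : ℝ) ≤ B := by exact_mod_cast hb2
    have hlb : 0 ≤ Real.log b := Real.log_nonneg hbr
    have hlbB : Real.log b ≤ Real.log B := Real.log_le_log hb0 hbB
    have hbE : 0 ≤ (b : ℝ) ^ E := Real.rpow_nonneg hb0.le _
    have hBE : 0 ≤ (B : ℝ) ^ E := Real.rpow_nonneg hB0.le _
    have hbE1 : (b : ℝ) ^ E ≤ (B : ℝ) ^ E := Real.rpow_le_rpow hb0.le hbB hE0
    rcases le_total b H with h | h
    · rw [min_eq_left h]
      have h1 : (b : ℝ) ^ n * ((b : ℝ) ^ E * (1 + Real.log b) ^ Q / (b : ℝ) ^ D) ≤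
          K1 * (b : ℝ) ^ (-(1 + η / 2)) := by
        have h4 : (b : ℝ) ^ n * ((b : ℝ) ^ E * (1 + Real.log b) ^ Q / (b : ℝ) ^ D) ≤
            (b : ℝ) ^ n * ((b : ℝ) ^ E * (K1 * (b : ℝ) ^ (η / 2)) / (b : ℝ) ^ D) := by
          refine mul_le_mul_of_nonneg_left ?_ (by positivity)
          exact div_le_div_of_nonneg_right (mul_le_mul_of_nonneg_left (hlog b hb1) hbE)
            (by positivity)
        refine h4.trans (le_of_eq ?_)
        have h5 : (b : ℝ) ^ n * ((b : ℝ) ^ E * (b : ℝ) ^ (η / 2)) / (b : ℝ) ^ D =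
            (b : ℝ) ^ (-(1 + η / 2)) := by
          rw [← Real.rpow_natCast (b : ℝ) n, ← Real.rpow_natCast (b : ℝ) D, ← Real.rpow_add hb0,
            ← Real.rpow_add hb0, ← Real.rpow_sub hb0]
          congr 1
          rw [hη]
          ring
        rw [← h5]
        ring
      have h8 : 0 ≤ (B : ℝ) ^ n * ((B : ℝ) ^ E * (1 + Real.log B) ^ Q / (H : ℝ) ^ D) := by
        positivity
      calc (2 * (3 * b) ^ n : ℝ) * ((b : ℝ) ^ E * (1 + Real.log b) ^ Q / (b : ℝ) ^ D)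
          = 2 * 3 ^ n * ((b : ℝ) ^ n * ((b : ℝ) ^ E * (1 + Real.log b) ^ Q / (b : ℝ) ^ D)) := by
            rw [mul_pow]; ring
        _ ≤ 2 * 3 ^ n * (K1 * (b : ℝ) ^ (-(1 + η / 2))) :=
            mul_le_mul_of_nonneg_left h1 (by positivity)
        _ ≤ _ := mul_le_mul_of_nonneg_left (by linarith) (by positivity)
    · rw [min_eq_right h]
      have h1 : (b : ℝ) ^ n * ((b : ℝ) ^ E * (1 + Real.log b) ^ Q / (H : ℝ) ^ D) ≤
          (B : ℝ) ^ n * ((B : ℝ) ^ E * (1 + Real.log B) ^ Q / (H : ℝ) ^ D) := by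
        refine mul_le_mul (pow_le_pow_left₀ hb0.le hbB n) ?_ (by positivity) (by positivity)
        refine div_le_div_of_nonneg_right ?_ (by positivity)
        exact mul_le_mul hbE1 (pow_le_pow_left₀ (by linarith) (by linarith) Q) (by positivity) hBE
      have h8 : 0 ≤ K1 * (b : ℝ) ^ (-(1 + η / 2)) := by positivity
      calc (2 * (3 * b) ^ n : ℝ) * ((b : ℝ) ^ E * (1 + Real.log b) ^ Q / (H : ℝ) ^ D)
          = 2 * 3 ^ n * ((b : ℝ) ^ n * ((b : ℝ) ^ E * (1 + Real.log b) ^ Q / (H : ℝ) ^ D)) := by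
            rw [mul_pow]; ring
        _ ≤ 2 * 3 ^ n * ((B : ℝ) ^ n * ((B : ℝ) ^ E * (1 + Real.log B) ^ Q / (H : ℝ) ^ D)) :=
            mul_le_mul_of_nonneg_left h1 (by positivity)
        _ ≤ _ := mul_le_mul_of_nonneg_left (by linarith) (by positivity)
  refine (Finset.sum_le_sum key).trans ?_
  rw [← Finset.mul_sum, Finset.sum_add_distrib, ← Finset.mul_sum, Finset.sum_const, Nat.card_Icc,
    Nat.add_sub_cancel, nsmul_eq_mul]
  have h1 : ∑ b ∈ Finset.Icc 1 B, (b : ℝ) ^ (-(1 + η / 2)) ≤ T :=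
    Summable.sum_le_tsum _ (fun b _ => Real.rpow_nonneg (Nat.cast_nonneg _) _) hsum
  have h2 : K1 * ∑ b ∈ Finset.Icc 1 B, (b : ℝ) ^ (-(1 + η / 2)) ≤ K1 * T :=
    mul_le_mul_of_nonneg_left h1 hK1
  set R : ℝ := (B : ℝ) ^ ((n : ℝ) + 1 + E) * (1 + Real.log B) ^ Q / (H : ℝ) ^ D with hR
  have hR0 : 0 ≤ R := by positivity
  have h3 : (B : ℝ) * ((B : ℝ) ^ n * ((B : ℝ) ^ E * (1 + Real.log B) ^ Q / (H : ℝ) ^ D)) = R := by
    rw [hR, Real.rpow_add hB0, Real.rpow_add hB0, Real.rpow_one, Real.rpow_natCast]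
    ring
  rw [h3, mul_assoc (2 * 3 ^ n) (K1 * T + 1)]
  refine mul_le_mul_of_nonneg_left ?_ (by positivity)
  have h4 : 0 ≤ K1 * T := mul_nonneg hK1 hT0
  nlinarith [mul_nonneg h4 hR0]

theorem sum_exc {s : ℕ} (m : Fin s → ℕ∞) (S : Finset ℕ) :
    ∑ i, exc S (m i) = S.card * ninf m := by
  classical
  unfold exc ninf
  rw [Finset.sum_ite, Finset.sum_const_zero, add_zero, Finset.sum_const, smul_eq_mul, mul_comm]

theorem fin_cam {s : ℕ} (d : Fin s → ℕ) (m : Fin s → ℕ∞) (S : Finset ℕ) (H B : ℕ) :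
    (CamPoint n d m S H B).Finite :=
  (fin_systems (n := n) d H).subset fun _ hF => hF.1

theorem mem_bad_cam {s : ℕ} (d : Fin s → ℕ) (m : Fin s → ℕ∞) (S : Finset ℕ) (H B : ℕ)
    (F : Fin s → MvPolynomial (Fin (n + 1)) ℤ) (hF : F ∈ CamPoint n d m S H B) :
    F ∈ bad2 n (fun i x => VC n (d i) H S (m i) x) B := by
  classical
  obtain ⟨hF, x, ⟨a, ha⟩, hB, hC⟩ := hF
  obtain ⟨i0, -, hi0⟩ := Finset.exists_max_image (Finset.univ : Finset (Fin (n + 1)))
    (fun i => |x i|) ⟨0, Finset.mem_univ _⟩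
  have hx1 : 1 ≤ (x i0).natAbs := by
    by_contra h
    have h1 : (x i0).natAbs = 0 := by omega
    have h2 : x i0 = 0 := Int.natAbs_eq_zero.1 h1
    have h3 : ∀ i, x i = 0 := by
      intro i
      have h4 := hi0 i (Finset.mem_univ i)
      rw [h2, abs_zero] at h4
      exact abs_eq_zero.1 (le_antisymm h4 (abs_nonneg _))
    rw [Finset.sum_eq_zero (fun i _ => by rw [h3 i, mul_zero])] at ha
    exact zero_ne_one ha
  have hp : Prim x i0 (x i0).natAbs := by
    refine ⟨⟨a, ha⟩, (Int.natCast_natAbs _).symm, hx1, fun i => ?_⟩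
    rw [Int.natCast_natAbs]
    exact hi0 i (Finset.mem_univ i)
  have hb : (x i0).natAbs ≤ B := by
    have h2 : ((x i0).natAbs : ℤ) ≤ B := by rw [Int.natCast_natAbs]; exact hB i0
    exact_mod_cast h2
  unfold bad2
  simp only [Finset.mem_biUnion, Finset.mem_univ, true_and, Finset.mem_Icc, Finset.mem_filter,
    Fintype.mem_piFinset]
  refine ⟨i0, (x i0).natAbs, ⟨hx1, hb⟩, x, ⟨mem_Bx hp, hp⟩, fun i => ?_⟩
  rw [mem_VC]
  exact ⟨(mem_FF _).2 (hF i), hC i⟩

/-- the main factor -/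
noncomputable def mf {s : ℕ} (m : Fin s → ℕ∞) (S : Finset ℕ) (H : ℕ) : ℝ :=
  (H : ℝ) ^ (∑ i, th (m i)) * (1 + Real.log H) ^ (S.card * ninf m) / (H : ℝ) ^ s

theorem th_nonneg (m : ℕ∞) : 0 ≤ th m := by
  unfold th
  by_cases h : m = ⊤
  · rw [if_pos h]
  · rw [if_neg h]
    positivity

theorem prod_mf {s : ℕ} (m : Fin s → ℕ∞) (S : Finset ℕ) (H : ℕ) (hH : 1 ≤ H) :
    ∏ i, (((H : ℝ) ^ th (m i) * (1 + Real.log H) ^ exc S (m i)) / H) = mf m S H := by
  have hH0 : (0 : ℝ) < H := by exact_mod_cast hH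
  unfold mf
  rw [Finset.prod_div_distrib, Finset.prod_mul_distrib, Finset.prod_pow_eq_pow_sum, sum_exc,
    Finset.prod_const, Finset.card_univ, Fintype.card_fin, Real.rpow_sum_of_pos hH0]

theorem up_cam {s : ℕ} (d : Fin s → ℕ) (m : Fin s → ℕ∞) (hm : ∀ i, 1 ≤ m i) (S : Finset ℕ)
    (hS : ∀ p ∈ S, p.Prime)
    (hd : (n : ℝ) + 1 < ∑ i, (d i : ℝ) * (1 - th (m i))) : ∃ K : ℝ, ∀ H B : ℕ, 1 ≤ H → 1 ≤ B →
    ((CamPoint n d m S H B).ncard : ℝ) ≤ K * mf m S H *
      (1 + (B : ℝ) ^ ((n : ℝ) + 1 + ∑ i, (d i : ℝ) * th (m i)) *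
        (1 + Real.log B) ^ (S.card * ninf m) / (H : ℝ) ^ (∑ i, d i)) *
      ((Systems n d H).ncard : ℝ) := by
  classical
  choose K hK hKb using fun i => card_VC (n := n) (d i) S hS (m i) (hm i)
  set E : ℝ := ∑ i, (d i : ℝ) * th (m i) with hE
  have hE0 : 0 ≤ E := Finset.sum_nonneg fun i _ => mul_nonneg (Nat.cast_nonneg _) (th_nonneg _)
  have hD : (n : ℝ) + 1 + E < ((∑ i, d i : ℕ) : ℝ) := by
    have h1 : ∑ i, (d i : ℝ) * (1 - th (m i)) = ((∑ i, d i : ℕ) : ℝ) - E := by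
      rw [hE, Nat.cast_sum, ← Finset.sum_sub_distrib]
      exact Finset.sum_congr rfl fun i _ => by ring
    rw [h1] at hd
    linarith
  obtain ⟨K1, hK1, hsum⟩ := sum_log_real n (∑ i, d i) (S.card * ninf m) E hE0 hD
  refine ⟨(n + 1) * K1 * ∏ i, K i, fun H B hH hB => ?_⟩
  have hHr : (1 : ℝ) ≤ H := by exact_mod_cast hH
  have hlH : 0 ≤ Real.log H := Real.log_nonneg hHr
  have h1 : CamPoint n d m S H B ⊆
      ((bad2 n (fun i x => VC n (d i) H S (m i) x) B : Finset _) : Set _) :=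
    fun F hF => mem_bad_cam d m S H B F hF
  have h2 := Set.ncard_le_ncard h1 (Finset.finite_toSet _)
  rw [Set.ncard_coe_finset] at h2
  have h3 : ((CamPoint n d m S H B).ncard : ℝ) ≤
      ((bad2 n (fun i x => VC n (d i) H S (m i) x) B).card : ℝ) := Nat.cast_le.2 h2
  refine h3.trans ?_
  have hmf : 0 ≤ mf m S H := by
    unfold mf
    positivity
  set A : ℝ := (∏ i, K i) * mf m S H * ∏ i, ((FF n (d i) H).card : ℝ) with hA
  have hA0 : 0 ≤ A := by
    rw [hA]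
    exact mul_nonneg (mul_nonneg (Finset.prod_nonneg fun i _ => hK i) hmf)
      (Finset.prod_nonneg fun i _ => Nat.cast_nonneg _)
  have h4 := card_bad2 (n := n) (fun i x => VC n (d i) H S (m i) x) B A
    (fun b => (b : ℝ) ^ E * (1 + Real.log b) ^ (S.card * ninf m) /
      ((min b H : ℕ) : ℝ) ^ (∑ i, d i))
    (fun b hb => by
      have hbr : (1 : ℝ) ≤ b := by exact_mod_cast (Finset.mem_Icc.1 hb).1
      have hlb : 0 ≤ Real.log b := Real.log_nonneg hbr
      exact mul_nonneg (div_nonneg (mul_nonneg (Real.rpow_nonneg (by linarith) _) (by positivity))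
        (pow_nonneg (Nat.cast_nonneg _) _)) hA0)
    (fun x i0 b hx => by
      have hb0 : (0 : ℝ) < b := by exact_mod_cast hx.2.2.1
      refine (Finset.prod_le_prod (fun i _ => Nat.cast_nonneg _)
        (fun i _ => hKb i H hH x i0 b hx)).trans (le_of_eq ?_)
      rw [Finset.prod_mul_distrib, Finset.prod_mul_distrib, Finset.prod_mul_distrib,
        prod_mf m S H hH,
        Finset.prod_div_distrib (f := fun i => (b : ℝ) ^ ((d i : ℝ) * th (m i)) *
          (1 + Real.log b) ^ exc S (m i)),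
        Finset.prod_mul_distrib (f := fun i => (b : ℝ) ^ ((d i : ℝ) * th (m i))),
        Finset.prod_pow_eq_pow_sum, Finset.prod_pow_eq_pow_sum, sum_exc,
        ← Real.rpow_sum_of_pos hb0, hA]
      ring)
  refine h4.trans ?_
  have h5 := mul_le_mul_of_nonneg_right (hsum H B hH hB) hA0
  have h6 : (0 : ℝ) ≤ (n : ℝ) + 1 := by positivity
  refine (mul_le_mul_of_nonneg_left h5 h6).trans (le_of_eq ?_)
  rw [hA, card_systems, Nat.cast_prod]
  ring

/-- the systems of the lower bound -/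
noncomputable def zcam (n : ℕ) {s : ℕ} (d : Fin s → ℕ) (m : Fin s → ℕ∞) (S : Finset ℕ) (H : ℕ) :
    Finset (Fin s → MvPolynomial (Fin (n + 1)) ℤ) := by
  classical
  exact Fintype.piFinset fun i => VC n (d i) H S (m i) (e0 n)

theorem zcam_sub {s : ℕ} (d : Fin s → ℕ) (m : Fin s → ℕ∞) (S : Finset ℕ) (H B : ℕ)
    (hB : 1 ≤ B) :
    ((zcam n d m S H : Finset _) : Set (Fin s → MvPolynomial (Fin (n + 1)) ℤ)) ⊆
      CamPoint n d m S H B := by
  classical
  intro F hF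
  unfold zcam at hF
  rw [Finset.mem_coe, Fintype.mem_piFinset] at hF
  refine ⟨fun i => (mem_FF _).1 (mem_VC.1 (hF i)).1, e0 n, ⟨e0 n, ?_⟩, ?_, fun i =>
    (mem_VC.1 (hF i)).2⟩
  · rw [Finset.sum_eq_single 0]
    · rw [e0_zero, mul_one]
    · intro j _ hj
      rw [e0_ne n hj, mul_zero]
    · intro h
      exact absurd (Finset.mem_univ _) h
  · intro j
    by_cases hj : j = 0
    · rw [hj, e0_zero, abs_one]
      exact_mod_cast hB
    · rw [e0_ne n hj, abs_zero]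
      exact Nat.cast_nonneg B

theorem low_cam {s : ℕ} (d : Fin s → ℕ) (m : Fin s → ℕ∞) (hm : ∀ i, 1 ≤ m i) (S : Finset ℕ)
    (hS : ∀ p ∈ S, p.Prime) : ∃ c : ℝ, 0 < c ∧ ∀ H B : ℕ, 1 ≤ H → 1 ≤ B →
    c * mf m S H * ((Systems n d H).ncard : ℝ) ≤ ((CamPoint n d m S H B).ncard : ℝ) := by
  classical
  choose c hc hcb using fun i => low_VC (n := n) (d i) S hS (m i) (hm i)
  refine ⟨∏ i, c i, Finset.prod_pos fun i _ => hc i, fun H B hH hB => ?_⟩
  have hHr : (1 : ℝ) ≤ H := by exact_mod_cast hH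
  have hlH : 0 ≤ Real.log H := Real.log_nonneg hHr
  have h2 := Set.ncard_le_ncard (zcam_sub (n := n) d m S H B hB) (fin_cam d m S H B)
  rw [Set.ncard_coe_finset] at h2
  have h3 : ((zcam n d m S H).card : ℝ) ≤ ((CamPoint n d m S H B).ncard : ℝ) := Nat.cast_le.2 h2
  refine le_trans ?_ h3
  have h5 : (zcam n d m S H).card = ∏ i, (VC n (d i) H S (m i) (e0 n)).card := by
    unfold zcam
    rw [Fintype.card_piFinset]
  rw [h5, card_systems, Nat.cast_prod, Nat.cast_prod]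
  have h4 : (∏ i, c i) * mf m S H * ∏ i, ((FF n (d i) H).card : ℝ) =
      ∏ i, (c i * (((H : ℝ) ^ th (m i) * (1 + Real.log H) ^ exc S (m i)) / H) *
        ((FF n (d i) H).card : ℝ)) := by
    rw [Finset.prod_mul_distrib, Finset.prod_mul_distrib, prod_mf m S H hH]
  rw [h4]
  exact Finset.prod_le_prod (fun i _ => mul_nonneg (mul_nonneg (hc i).le
    (div_nonneg (mul_nonneg (Real.rpow_nonneg (by linarith) _) (by positivity))
      (Nat.cast_nonneg _))) (Nat.cast_nonneg _))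
    (fun i _ => hcb i H hH)

/-- **Random C-pairs.** -/
theorem cpairs (n s : ℕ) (d : Fin s → ℕ) (m : Fin s → ℕ∞) (hm : ∀ i, 1 ≤ m i) (S : Finset ℕ)
    (hS : ∀ p ∈ S, p.Prime) (hd : (n : ℝ) + 1 < ∑ i, (d i : ℝ) * (1 - th (m i))) :
    ∃ c K : ℝ, 0 < c ∧ ∀ H B : ℕ, 1 ≤ H → 1 ≤ B →
      (Systems n d H).Finite ∧
      (Systems n d H).ncard = (2 * H + 1) ^ (∑ i, (n + d i).choose (d i)) ∧
      c * ((H : ℝ) ^ (∑ i, th (m i)) * (1 + Real.log H) ^ (S.card * ninf m) / (H : ℝ) ^ s) *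
        ((Systems n d H).ncard : ℝ) ≤ ((CamPoint n d m S H B).ncard : ℝ) ∧
      ((CamPoint n d m S H B).ncard : ℝ) ≤
        K * ((H : ℝ) ^ (∑ i, th (m i)) * (1 + Real.log H) ^ (S.card * ninf m) / (H : ℝ) ^ s) *
          (1 + (B : ℝ) ^ ((n : ℝ) + 1 + ∑ i, (d i : ℝ) * th (m i)) *
            (1 + Real.log B) ^ (S.card * ninf m) / (H : ℝ) ^ (∑ i, d i)) *
          ((Systems n d H).ncard : ℝ) := by
  obtain ⟨c, hc, h1⟩ := low_cam (n := n) d m hm S hS
  obtain ⟨K, h2⟩ := up_cam (n := n) d m hm S hS hd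
  refine ⟨c, K, hc, fun H B hH hB => ⟨fin_systems _ H, ?_, h1 H B hH hB, h2 H B hH hB⟩⟩
  rw [card_systems, ← Finset.prod_pow_eq_pow_sum]
  refine Finset.prod_congr rfl fun i _ => ?_
  rw [card_FF, card_Mo]

end Pool.Agent.R870.RC
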